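import Pool.Agent.V5helper94.WB.Wt
import Pool.Agent.V5helper77.OP.Main

/-!
# Ordinary primes for the varieties of bounded dimension and the schemes which are built from them
-/

set_option autoImplicit false

open CategoryTheory CategoryTheory.Limits AlgebraicGeometry Pool.Agent.Y116.UV Pool.Agent.Z125.UN
  Pool.Agent.V5helper77.GW Pool.Agent.V5helper77.OP Pool.Agent.V5helper94.SV
  Pool.Agent.V5helper94.WB Pool.Agent.V5helper52.SF NumberField IsDedekindDomain Filter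
  Pool.Agent.Q193.LT
open scoped TensorProduct

universe v u

namespace Pool.Agent.V5helper94.OB

/-! ### The statements -/

section defs

variable {C : Type u} [Category.{v} C] (V : ℤ → ℤ → Sch ℚ → C) (ten : C → C → C) (D : Slopes C)
  (I : IHSlopes)

/-- Almost all primes in `P` are ordinary for the motive `M`. -/
def AlmostAll (P : Set Nat.Primes) (M : C) : Prop := {p ∈ P | ¬ D.Ord M p}.Finite

/-- Almost all primes in `P` are ordinary for `H^n(X)`, for each smooth projective variety `X` over `ℚ` of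
dimension at most `d` and each `n`. -/
def SmProjAt (d : ℕ) (P : Set Nat.Primes) : Prop :=
  ∀ X : Sch ℚ, IsSmProj X → topologicalKrullDim X.left ≤ d → ∀ n : ℤ, AlmostAll D P (V n n X)

/-- Almost all primes in `P` are ordinary for `Gr^W_w H^n_c(X)`, for all `w`, `n` and each scheme `X` over
`ℚ` which is built from schemes of dimension at most `d`. -/
def BuiltAt (d : ℕ) (P : Set Nat.Primes) : Prop :=
  ∀ X : Sch ℚ, Built ℚ d X → ∀ w n : ℤ, AlmostAll D P (V w n X)

/-- `X` is a hypersurface `T(x, y, z) = 1` over `ℚ`, `T` a trilinear form in three blocks of variables, one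
of which has at most `m` variables. -/
def IsCubic (m : ℕ) (X : Sch ℚ) : Prop :=
  ∃ (a b c : ℕ) (T : Fin a → Fin b → Fin c → ℚ), (a ≤ m ∨ b ≤ m ∨ c ≤ m) ∧ X = hypS T

/-- Almost all primes in `P` are ordinary for `Gr^W_w H^n_c(X)`, for all `w`, `n` and the trilinear
hypersurfaces `X` with a block of at most `m` variables. -/
def CubicsAt (m : ℕ) (P : Set Nat.Primes) : Prop :=
  ∀ X : Sch ℚ, IsCubic m X → ∀ w n : ℤ, AlmostAll D P (V w n X)

/-- All the places above almost all primes in `P` are ordinary for `IH^n(X)`, for each projective variety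
`X` of dimension at most `d` over a number field `F` and each `n`. -/
def IntersectionAt (d : ℕ) (P : Set Nat.Primes) : Prop :=
  ∀ (F : Type) [Field F] [NumberField F] (X : Sch F), IsProjVar X → topologicalKrullDim X.left ≤ d →
    ∀ n : ℤ, {p ∈ P | ¬ ∀ v ∈ lying F p, I.Ord F X n v}.Finite

/-- The tensor product of the motives `Gr^W_w H^n_c(X)`, `(X, w, n)` in the list `L`. -/
noncomputable def tensorAll (L : List (Sch ℚ × ℤ × ℤ)) : C :=
  L.foldr (fun q M => ten (V q.2.1 q.2.2 q.1) M) (V 0 0 (aff ℚ ℚ))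

/-- There are infinitely many ordinary primes for each motive
`H^{n_1}(X_1) ⊗ ⋯ ⊗ H^{n_r}(X_r)`, `X_i` smooth projective varieties over `ℚ` of dimension at most `d`. -/
def ProductsOrdinary (d : ℕ) : Prop :=
  ∀ L : List (Sch ℚ × ℤ × ℤ),
    (∀ q ∈ L, IsSmProj q.1 ∧ topologicalKrullDim q.1.left ≤ d ∧ q.2.1 = q.2.2) →
      {p | D.Ord (tensorAll V ten L) p}.Infinite

/-- There are infinitely many ordinary primes for each tensor product of motives `Gr^W_w H^n_c(X)`, `X` a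
trilinear hypersurface over `ℚ` with a block of at most `m` variables. -/
def CubicsOrdinary (m : ℕ) : Prop :=
  ∀ L : List (Sch ℚ × ℤ × ℤ), (∀ q ∈ L, IsCubic m q.1) → {p | D.Ord (tensorAll V ten L) p}.Infinite

/-- There are infinitely many ordinary primes for each motive `Gr^W_w H^n_c(X)`, `X` a scheme over `ℚ`
which is built from schemes of dimension at most `d`. -/
def BuiltOrdinary (d : ℕ) : Prop :=
  ∀ X : Sch ℚ, Built ℚ d X → ∀ w n : ℤ, {p | D.Ord (V w n X) p}.Infinite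

/-- The decomposition theorem: for a projective variety `X` over `F` the restriction of scalars `M` of the
motive `IH^n(X)` is a direct summand of `H^n(Y)`, for a resolution of singularities `Y` of `X`,
considered as a smooth projective variety over `ℚ`; it has the dimension of `X`. -/
def HasResolutions : Prop :=
  ∀ (F : Type) [Field F] [NumberField F] (X : Sch F), IsProjVar X → ∀ n : ℤ,
    ∃ (Y : Sch ℚ) (M : C), IsSmProj Y ∧ topologicalKrullDim Y.left ≤ topologicalKrullDim X.left ∧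
      IsSummand M (V n n Y) ∧ IsRes D I F X n M

end defs

/-! ### Filters of sets of primes -/

lemma filter_of_lists {ι : Type*} {O : ι → Nat.Primes → Prop}
    (h : ∀ L : List ι, {p | ∀ i ∈ L, O i p}.Infinite) :
    ∃ 𝓕 : Filter Nat.Primes, 𝓕.NeBot ∧ 𝓕 ≤ cofinite ∧ ∀ i, ∀ᶠ p in 𝓕, O i p := by
  let f : List ι → Filter Nat.Primes := fun L => cofinite ⊓ 𝓟 {p | ∀ i ∈ L, O i p}
  have hdir : Directed (· ≥ ·) f := by
    intro L L'
    refine ⟨L ++ L', ?_, ?_⟩
    · exact inf_le_inf_left _ (principal_mono.mpr fun p hp i hi => hp i (by simp [hi]))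
    · exact inf_le_inf_left _ (principal_mono.mpr fun p hp i hi => hp i (by simp [hi]))
  refine ⟨⨅ L, f L, iInf_neBot_of_directed' hdir fun L =>
    cofinite_inf_principal_neBot_iff.mpr (h L), ?_, ?_⟩
  · exact (iInf_le f []).trans inf_le_left
  · intro i
    have h1 : f [i] ≤ 𝓟 {p | O i p} :=
      inf_le_right.trans (principal_mono.mpr fun p hp => hp i (by simp))
    exact le_principal_iff.mp ((iInf_le f [i]).trans h1)

section motives

variable {C : Type u} [Category.{v} C] [Abelian C] {V : ℤ → ℤ → Sch ℚ → C} {tw : ℤ → C → C}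
  {ten : C → C → C} {D : Slopes C} {I : IHSlopes}

section

variable (hD : IsSlopes V tw ten D)

include hD

lemma dominate_list (L : List (Sch ℚ × ℤ × ℤ)) : ∃ L' : List (Sch ℚ × ℤ × ℤ), L' ⊆ L ∧
    D.hodge (tensorAll V ten L') ≠ 0 ∧
    ∀ᶠ p in cofinite, D.Ord (tensorAll V ten L') p → ∀ q ∈ L, D.Ord (V q.2.1 q.2.2 q.1) p := by
  induction L with
  | nil =>
    refine ⟨[], List.Subset.refl _, ?_, Eventually.of_forall fun p _ q hq => absurd hq (by simp)⟩
    change D.hodge (V 0 0 (aff ℚ ℚ)) ≠ 0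
    rw [hD.point]
    simp
  | cons a L ih =>
    obtain ⟨L', hs, h0, h1⟩ := ih
    by_cases ha : D.hodge (V a.2.1 a.2.2 a.1) = 0
    · refine ⟨L', List.Subset.trans hs (List.subset_cons_self _ _), h0, ?_⟩
      filter_upwards [h1, ord_zero hD ha] with p e1 e2 ho q hq
      rcases List.mem_cons.mp hq with rfl | hq
      · exact e2
      · exact e1 ho q hq
    · refine ⟨a :: L', List.cons_subset_cons _ hs, hodge_tensor hD ha h0, ?_⟩
      filter_upwards [h1, ord_tensor hD ha h0] with p e1 e3 ho q hq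
      obtain ⟨e4, e5⟩ := e3 ho
      rcases List.mem_cons.mp hq with rfl | hq
      · exact e4
      · exact e1 e5 q hq

/-- Ordinary primes for the single tensor products give a filter of sets of primes. -/
lemma filter_of_tensor (G : Sch ℚ × ℤ × ℤ → Prop)
    (h : ∀ L : List (Sch ℚ × ℤ × ℤ), (∀ q ∈ L, G q) → {p | D.Ord (tensorAll V ten L) p}.Infinite) :
    ∃ 𝓕 : Filter Nat.Primes, 𝓕.NeBot ∧ 𝓕 ≤ cofinite ∧
      ∀ q, G q → ∀ᶠ p in 𝓕, D.Ord (V q.2.1 q.2.2 q.1) p := by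
  obtain ⟨𝓕, h1, h2, h3⟩ := filter_of_lists (ι := {q // G q})
    (O := fun q p => D.Ord (V q.1.2.1 q.1.2.2 q.1.1) p) (by
      intro L
      obtain ⟨L', hs, -, h1⟩ := dominate_list hD (L.map Subtype.val)
      have hG : ∀ q ∈ L', G q := by
        intro q hq
        obtain ⟨x, -, rfl⟩ := List.mem_map.mp (hs hq)
        exact x.2
      intro hf
      apply h L' hG
      refine (hf.union h1).subset ?_
      intro p hp
      by_cases hc : ∀ q ∈ L, D.Ord (V q.1.2.1 q.1.2.2 q.1.1) p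
      · exact Or.inl hc
      · exact Or.inr fun h => hc fun q hq => h hp q.1 (List.mem_map_of_mem hq))
  exact ⟨𝓕, h1, h2, fun q hq => h3 ⟨q, hq⟩⟩

lemma ord_ten {𝓕 : Filter Nat.Primes} (h𝓕 : 𝓕 ≤ cofinite) {M N : C}
    (hM : ∀ᶠ p in 𝓕, D.Ord M p) (hN : ∀ᶠ p in 𝓕, D.Ord N p) : ∀ᶠ p in 𝓕, D.Ord (ten M N) p := by
  obtain ⟨h1, h2⟩ := hD.tensor M N
  filter_upwards [hM, hN, h𝓕 h2] with p e1 e2 e3
  unfold Slopes.Ord at e1 e2 ⊢
  rw [e3, h1, e1, e2]

lemma ord_tensorAll {𝓕 : Filter Nat.Primes} (h𝓕 : 𝓕 ≤ cofinite) (L : List (Sch ℚ × ℤ × ℤ))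
    (h : ∀ q ∈ L, ∀ᶠ p in 𝓕, D.Ord (V q.2.1 q.2.2 q.1) p) :
    ∀ᶠ p in 𝓕, D.Ord (tensorAll V ten L) p := by
  induction L with
  | nil => exact point_pieces hD h𝓕 0 0
  | cons a L ih =>
    exact ord_ten hD h𝓕 (h a List.mem_cons_self) (ih fun q hq => h q (List.mem_cons_of_mem _ hq))

omit hD [Abelian C] [Category.{v} C] in
lemma infinite_of_filter {𝓕 : Filter Nat.Primes} [𝓕.NeBot] (h𝓕 : 𝓕 ≤ cofinite) {M : C}
    (h : ∀ᶠ p in 𝓕, D.Ord M p) : {p | D.Ord M p}.Infinite := by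
  intro hf
  have h3 : ∀ᶠ p in 𝓕, ¬ D.Ord M p := h𝓕 hf.compl_mem_cofinite
  obtain ⟨p, hp1, hp2⟩ := (h.and h3).exists
  exact hp2 hp1

end

variable (hV : IsTensorTheory V tw ten) (hD : IsSlopes V tw ten D) (hH : Hironaka ℚ)

include hV hD hH

/-- The comparison for one filter. -/
lemma filter_built {𝓕 : Filter Nat.Primes} (h𝓕 : 𝓕 ≤ cofinite) {d : ℕ} (hd : 1 ≤ d) :
    (∀ X : Sch ℚ, IsSmProj X → topologicalKrullDim X.left ≤ d → ∀ n : ℤ,
        ∀ᶠ p in 𝓕, D.Ord (V n n X) p) ↔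
      ∀ X : Sch ℚ, Built ℚ d X → ∀ w n : ℤ, ∀ᶠ p in 𝓕, D.Ord (V w n X) p :=
  graded_built_iff (S := fun _ M => ∀ᶠ p in 𝓕, D.Ord M p) hV (twistClass hD h𝓕)
    (fun _ _ _ _ hM hN => ord_ten hD h𝓕 hM hN) (point_pieces hD h𝓕) hH hd

lemma filter_cubics {𝓕 : Filter Nat.Primes} (h𝓕 : 𝓕 ≤ cofinite) (d : ℕ) :
    (∀ X : Sch ℚ, IsSmProj X → topologicalKrullDim X.left ≤ d → ∀ n : ℤ,
        ∀ᶠ p in 𝓕, D.Ord (V n n X) p) ↔
      ∀ X : Sch ℚ, IsCubic (d + 2) X → ∀ w n : ℤ, ∀ᶠ p in 𝓕, D.Ord (V w n X) p := by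
  refine (graded_iff hV.toIsWeightTheory (twistClass hD h𝓕) (point_pieces hD h𝓕) hH d).2.trans ?_
  constructor
  · rintro h X ⟨a, b, c, T, hT, rfl⟩
    exact h a b c T hT
  · intro h a b c T hT
    exact h _ ⟨a, b, c, T, hT, rfl⟩

/-- **Theorem**, for one set of primes. -/
theorem set_iff (P : Set Nat.Primes) {d : ℕ} (hd : 1 ≤ d) :
    (SmProjAt V D d P ↔ BuiltAt V D d P) ∧ (SmProjAt V D d P ↔ CubicsAt V D (d + 2) P) := by
  have hle : (cofinite ⊓ 𝓟 P : Filter Nat.Primes) ≤ cofinite := inf_le_left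
  constructor
  · unfold SmProjAt BuiltAt AlmostAll
    simp only [finite_iff]
    exact filter_built hV hD hH hle hd
  · unfold SmProjAt CubicsAt AlmostAll
    simp only [finite_iff]
    exact filter_cubics hV hD hH hle d

omit hV hH in
/-- **Theorem**: intersection cohomology. -/
theorem set_inter (hI : IsIH V D I) (hR : HasResolutions V D I) (P : Set Nat.Primes) (d : ℕ) :
    SmProjAt V D d P ↔ IntersectionAt I d P := by
  constructor
  · intro h F _ _ X hX hdim n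
    obtain ⟨Y, M, hY, hYd, hs, hres⟩ := hR F X hX n
    have h1 := h Y hY (hYd.trans hdim) n
    unfold AlmostAll at h1
    rw [finite_iff] at h1 ⊢
    have h2 := (inf_le_left : cofinite ⊓ 𝓟 P ≤ cofinite) (ord_summand hD hs)
    have h3 := (inf_le_left : cofinite ⊓ 𝓟 P ≤ cofinite) (ord_res (hI.above F X hX n) hres)
    filter_upwards [h1, h2, h3] with p e1 e2 e3
    exact e3 (e2 e1)
  · intro h X hX hdim n
    have hX' : IsProjVar X := ⟨hX.integral, hX.projective⟩
    have h1 := h ℚ X hX' hdim n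
    unfold AlmostAll
    rw [finite_iff] at h1 ⊢
    have h2 := (inf_le_left : cofinite ⊓ 𝓟 P ≤ cofinite)
      (ord_rat hD (hI.above ℚ X hX' n) (hI.smooth X hX n))
    filter_upwards [h1, h2] with p e1 e2
    obtain ⟨v, hv⟩ := exists_place ℚ p
    exact e2 ⟨v, hv, e1 v hv⟩

omit hV hD hH in
lemma countable_poly (n : ℕ) : Countable (MvPolynomial (Fin n) ℚ) := by
  rw [← Cardinal.mk_le_aleph0_iff]
  refine MvPolynomial.cardinalMk_le_max.trans ?_
  simp

omit hV hD hH in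
lemma countable_ideal (n : ℕ) : Countable (Ideal (MvPolynomial (Fin n) ℚ)) := by
  have hc := countable_poly n
  have h : Function.Surjective
      (fun s : Finset (MvPolynomial (Fin n) ℚ) => Ideal.span (s : Set (MvPolynomial (Fin n) ℚ))) := by
    intro J
    obtain ⟨s, hs⟩ := (isNoetherianRing_iff_ideal_fg _).mp inferInstance J
    exact ⟨s, hs⟩
  exact h.countable

/-- The affine schemes which are built from schemes of dimension at most `d`, up to isomorphism. -/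
def Idx (d : ℕ) : Type :=
  {x : Σ n : ℕ, Ideal (MvPolynomial (Fin n) ℚ) // Built ℚ d (aff ℚ (MvPolynomial (Fin x.1) ℚ ⧸ x.2))}

instance (d : ℕ) : Countable (Idx d) := by
  have h (n : ℕ) := countable_ideal n
  unfold Idx
  infer_instance

omit hV hD hH in
lemma exists_idx {d : ℕ} (A : Type) [CommRing A] [Algebra ℚ A] [Algebra.FiniteType ℚ A]
    (h : Built ℚ d (aff ℚ A)) :
    ∃ x : Idx d, Nonempty ((MvPolynomial (Fin x.1.1) ℚ ⧸ x.1.2) ≃ₐ[ℚ] A) := by
  obtain ⟨n, f, hf⟩ := Algebra.FiniteType.iff_quotient_mvPolynomial''.mp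
    (inferInstance : Algebra.FiniteType ℚ A)
  let e := Ideal.quotientKerAlgEquivOfSurjective hf
  exact ⟨⟨⟨n, RingHom.ker f⟩, .iso (ft_aff True) ⟨affIso e⟩ h⟩, ⟨e⟩⟩

omit hH in
/-- Ordinary primes for the single motives give one sequence of primes. -/
lemma exists_seq_idx {d : ℕ} (h : BuiltOrdinary V D d) :
    ∃ x : ℕ → Nat.Primes, Tendsto x atTop cofinite ∧ ∀ (y : Idx d) (w n : ℤ),
      ∀ᶠ k in atTop, D.Ord (V w n (aff ℚ (MvPolynomial (Fin y.1.1) ℚ ⧸ y.1.2))) (x k) := by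
  let M : Idx d × ℤ × ℤ → C := fun q => V q.2.1 q.2.2 (aff ℚ (MvPolynomial (Fin q.1.1.1) ℚ ⧸ q.1.1.2))
  have hten : ∀ i j, ∃ k, (D.hodge (M i) ≠ 0 → D.hodge (M j) ≠ 0 → D.hodge (M k) ≠ 0) ∧
      ∀ᶠ p in cofinite, D.Ord (M k) p → D.Ord (ten (M i) (M j)) p := by
    rintro ⟨y, w, n⟩ ⟨y', w', n'⟩
    obtain ⟨z, ⟨e⟩⟩ := exists_idx _ (Built.prod _ _ y.2 y'.2)
    have hs := hD.kunneth (MvPolynomial (Fin y.1.1) ℚ ⧸ y.1.2) (MvPolynomial (Fin y'.1.1) ℚ ⧸ y'.1.2)
      w n w' n'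
    obtain ⟨u⟩ := hV.iso (ft_aff True) ⟨affIso e⟩ (w + w') (n + n')
    have hs2 : IsSummand (ten (M (y, w, n)) (M (y', w', n'))) (M (z, w + w', n + n')) := by
      obtain ⟨f, r, hfr⟩ := hs
      refine ⟨f ≫ u.hom, u.inv ≫ r, ?_⟩
      rw [Category.assoc, Iso.hom_inv_id_assoc]
      exact hfr
    exact ⟨(z, w + w', n + n'),
      fun h1 h2 => hodge_summand hD hs2 (hodge_tensor hD h1 h2), ord_summand hD hs2⟩
  obtain ⟨x, hx, hM⟩ := exists_seq M hD hten (fun q => h _ q.1.2 _ _)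
  exact ⟨x, hx, fun y w n => hM (y, w, n)⟩

/-- One sequence of primes for all schemes which are built from schemes of dimension at most `d`. -/
lemma exists_seq_built {d : ℕ} (hd : 1 ≤ d) (h : BuiltOrdinary V D d) :
    ∃ x : ℕ → Nat.Primes, Tendsto x atTop cofinite ∧ ∀ X : Sch ℚ, Built ℚ d X → ∀ w n : ℤ,
      ∀ᶠ k in atTop, D.Ord (V w n X) (x k) := by
  obtain ⟨x, hx, hM⟩ := exists_seq_idx hV hD h
  refine ⟨x, hx, (filter_built hV hD hH (𝓕 := Filter.map x atTop) hx hd).mp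
    ((filter_cubics hV hD hH hx d).mpr ?_)⟩
  rintro X ⟨a, b, c, T, hT, rfl⟩ w n
  have h1 : Built ℚ d (hypS T) := (Pool.Agent.Q193.LT.dim_iff (cls_built hd).toBnd d).mp
    (fun X hX hd => .dim hX hd) a b c T hT
  obtain ⟨y, ⟨e⟩⟩ := exists_idx _ h1
  have h2 := (hD.iso (hV.iso (ft_aff True) ⟨affIso e⟩ w n))
  have h3 := hx h2.2
  have h4 : ∀ᶠ p in Filter.map x atTop,
      D.Ord (V w n (aff ℚ (MvPolynomial (Fin y.1.1) ℚ ⧸ y.1.2))) p := eventually_map.mpr (hM y w n)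
  filter_upwards [h4, h3] with p e1 e2
  unfold Slopes.Ord at e1 ⊢
  exact e2.trans (e1.trans h2.1.symm)

/-- The range of the sequence. -/
lemma exists_set_built {d : ℕ} (hd : 1 ≤ d) (h : BuiltOrdinary V D d) :
    ∃ P : Set Nat.Primes, P.Infinite ∧ BuiltAt V D d P := by
  obtain ⟨x, hx, hX⟩ := exists_seq_built hV hD hH hd h
  refine ⟨Set.range x, ?_, ?_⟩
  · intro hf
    have h1 := hx hf.compl_mem_cofinite
    obtain ⟨k, hk⟩ := (Filter.mem_map.mp h1 |> fun h => (Filter.Eventually.exists h))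
    exact hk ⟨k, rfl⟩
  · intro X hXb w n
    have h4 := hX X hXb w n
    rw [← Nat.cofinite_eq_atTop] at h4
    refine (Set.Finite.image x h4).subset ?_
    rintro _ ⟨⟨k, rfl⟩, hk⟩
    exact ⟨k, hk, rfl⟩

/-- **Theorem**: ordinary primes for single motives, and sets of primes. -/
theorem main_tfae (hI : IsIH V D I) (hR : HasResolutions V D I) {d : ℕ} (hd : 1 ≤ d) :
    List.TFAE [ProductsOrdinary V ten D d, CubicsOrdinary V ten D (d + 2), BuiltOrdinary V D d,
      ∃ P : Set Nat.Primes, P.Infinite ∧ SmProjAt V D d P,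
      ∃ P : Set Nat.Primes, P.Infinite ∧ BuiltAt V D d P,
      ∃ P : Set Nat.Primes, P.Infinite ∧ IntersectionAt I d P] := by
  have key (𝓕 : Filter Nat.Primes) (hne : 𝓕.NeBot) (hle : 𝓕 ≤ cofinite)
      (h : ∀ X : Sch ℚ, IsSmProj X → topologicalKrullDim X.left ≤ d → ∀ n : ℤ,
        ∀ᶠ p in 𝓕, D.Ord (V n n X) p) : BuiltOrdinary V D d := fun X hX w n =>
    infinite_of_filter hle ((filter_built hV hD hH hle hd).mp h X hX w n)
  have key2 (P : Set Nat.Primes) (hP : P.Infinite) (G : Sch ℚ × ℤ × ℤ → Prop)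
      (h : ∀ q, G q → AlmostAll D P (V q.2.1 q.2.2 q.1)) (L : List (Sch ℚ × ℤ × ℤ))
      (hL : ∀ q ∈ L, G q) : {p | D.Ord (tensorAll V ten L) p}.Infinite := by
    have hne : (cofinite ⊓ 𝓟 P : Filter Nat.Primes).NeBot := cofinite_inf_principal_neBot_iff.mpr hP
    have hle : (cofinite ⊓ 𝓟 P : Filter Nat.Primes) ≤ cofinite := inf_le_left
    refine infinite_of_filter hle (ord_tensorAll hD hle L fun q hq => ?_)
    exact (finite_iff P _).mp (h q (hL q hq))
  tfae_have 1 → 3 := by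
    intro h
    obtain ⟨𝓕, hne, hle, h1⟩ := filter_of_tensor hD
      (fun q => IsSmProj q.1 ∧ topologicalKrullDim q.1.left ≤ d ∧ q.2.1 = q.2.2) h
    exact key 𝓕 hne hle fun X hX hdim n => h1 (X, n, n) ⟨hX, hdim, rfl⟩
  tfae_have 2 → 3 := by
    intro h
    obtain ⟨𝓕, hne, hle, h1⟩ := filter_of_tensor hD (fun q => IsCubic (d + 2) q.1) h
    exact key 𝓕 hne hle ((filter_cubics hV hD hH hle d).mpr fun X hX w n => h1 (X, w, n) hX)
  tfae_have 3 → 5 := exists_set_built hV hD hH hd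
  tfae_have 5 → 4 := by
    rintro ⟨P, hP, h⟩
    exact ⟨P, hP, (set_iff hV hD hH P hd).1.mpr h⟩
  tfae_have 4 → 6 := by
    rintro ⟨P, hP, h⟩
    exact ⟨P, hP, (set_inter hD hI hR P d).mp h⟩
  tfae_have 6 → 4 := by
    rintro ⟨P, hP, h⟩
    exact ⟨P, hP, (set_inter hD hI hR P d).mpr h⟩
  tfae_have 4 → 1 := by
    rintro ⟨P, hP, h⟩
    intro L hL
    refine key2 P hP (fun q => IsSmProj q.1 ∧ topologicalKrullDim q.1.left ≤ d ∧ q.2.1 = q.2.2) ?_ L hL
    rintro ⟨X, w, n⟩ ⟨hX, hdim, hwn⟩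
    dsimp only at hX hdim hwn ⊢
    subst hwn
    exact h X hX hdim w
  tfae_have 4 → 2 := by
    rintro ⟨P, hP, h⟩
    intro L hL
    exact key2 P hP (fun q => IsCubic (d + 2) q.1)
      (fun q hq => (set_iff hV hD hH P hd).2.mp h q.1 hq q.2.1 q.2.2) L hL
  tfae_finish

end motives

end Pool.Agent.V5helper94.OB
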